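import Pool.Agent.H44.FB.Basics

/-!
# Row NEQ of the board fbm_modules: different values
-/

set_option autoImplicit false

namespace Pool.Agent.H74.FB

open Pool.Agent.H68.BP Pool.Agent.H58.SF Pool.Agent.H53.NR
open Pool.Agent.H57.AR (tp ty Ty)
open Pool.Agent.H44.KR Pool.Agent.H44.FB
open Function Classical

section

variable {V : Type} {σ ρ : Sig}

/-- a step labelled by the pair `r` -/
def St (𝔸 : Str σ V) (𝔹 : Str ρ V) (r : V × V) (v v' : V) : Prop :=
  ∃ g, En 𝔸 𝔹 g ∧ g r.1 = v ∧ g r.2 = v'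

/-- There is a closed walk along the first `k` letters of `r`. -/
def Closed (𝔸 : Str σ V) (𝔹 : Str ρ V) (r : ℕ → V × V) (k : ℕ) : Prop :=
  ∃ u : ℕ → V, u 0 = u k ∧ ∀ i < k, St 𝔸 𝔹 (r i) (u i) (u (i + 1))

theorem st_comp {𝔸 : Str σ V} {𝔹 : Str ρ V} {r : V × V} {v v' : V} (h : St 𝔸 𝔹 r v v')
    {g' : V → V} (hg' : En 𝔸 𝔹 g') : St 𝔸 𝔹 r (g' v) (g' v') := by
  obtain ⟨g, h1, rfl, rfl⟩ := h
  exact ⟨fun v => g' (g v), en_comp hg' h1, rfl, rfl⟩

theorem st_poly {𝔸 : Str σ V} {𝔹 : Str ρ V} {P : Type} {f : (P → V) → V} (hf : IsPoly 𝔸 𝔸 f)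
    (hty : ∀ (x : P → V) (s : Fin ρ.m → Prop), (∀ p, ty 𝔹 (x p) = s) → ty 𝔹 (f x) = s)
    {r : V × V} {v v' : P → V} (h : ∀ p, St 𝔸 𝔹 r (v p) (v' p)) : St 𝔸 𝔹 r (f v) (f v') := by
  choose g hg1 hg2 hg3 using h
  refine ⟨fun t => f (fun p => g p t), ⟨?_, ?_⟩, ?_, ?_⟩
  · intro l x hx
    exact hf l (fun p k => g p (x k)) fun p => (hg1 p).1 l x hx
  · intro t
    exact hty _ _ fun p => (hg1 p).2 t
  · change f (fun p => g p r.1) = f v
    congr 1
    exact funext hg2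
  · change f (fun p => g p r.2) = f v'
    congr 1
    exact funext hg3

/-- Closed walks of length `N + 3`. -/
theorem closed_cyg {𝔸 : Str σ V} {𝔹 : Str ρ V} (ht : Tyi 𝔸 𝔹) (hE : EmbC 𝔹) (N : ℕ)
    (hC : CygC 𝔹 (N + 3)) (s : Fin ρ.m → Prop) (r : ℕ → V × V)
    (hr : ∀ i, ty 𝔹 (r i).1 = s ∧ ty 𝔹 (r i).2 = s ∧ (r i).1 ≠ (r i).2) :
    Closed 𝔸 𝔹 r (N + 3) := by
  have : Fact (1 < N + 3) := ⟨by omega⟩
  have hne : ∀ a : ZMod (N + 3), a + 1 ≠ a := by
    intro a h
    exact one_ne_zero (add_eq_left.1 h)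
  let m : ZMod (N + 3) → ZMod (N + 3) → V := fun a i =>
    if i = a then (r a.val).1 else (r a.val).2
  have hm1 : ∀ a, m a a = (r a.val).1 := fun a => if_pos rfl
  have hm2 : ∀ a, m a (a + 1) = (r a.val).2 := fun a => if_neg (hne a)
  obtain ⟨F, hF⟩ := hC (ZMod (N + 3)) id m (by
    intro a x hx y hy hxy
    rcases hx with hx | hx <;> rcases hy with hy | hy
    · exact (show x = a from hx).trans (show y = a from hy).symm
    · exfalso
      rw [show x = a from hx, show y = a + 1 from hy, hm1, hm2] at hxy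
      exact (hr a.val).2.2 hxy
    · exfalso
      rw [show x = a + 1 from hx, show y = a from hy, hm1, hm2] at hxy
      exact (hr a.val).2.2 hxy.symm
    · exact (show x = a + 1 from hx).trans (show y = a + 1 from hy).symm) (by
    intro a
    constructor
    · intro x hx y hy
      have h1 : x = a + 1 := hx
      have h2 : y = a + 1 := hy
      rw [h1, h2]
      exact ⟨fun _ => rfl, fun _ => rfl⟩
    · intro l z hz
      have h1 : (fun i => m a (z i)) = fun _ => (r a.val).2 := by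
        funext i
        rw [show z i = a + 1 from hz i, hm2]
      have h2 : (fun i => m (a + 1) (z i)) = fun _ => (r (a + 1).val).1 := by
        funext i
        rw [show z i = a + 1 from hz i, hm1]
      rw [h1, h2]
      have h3 : ty 𝔹 (r a.val).2 = ty 𝔹 (r (a + 1).val).1 :=
        (hr a.val).2.1.trans (hr (a + 1).val).1.symm
      exact iff_of_eq (congrFun h3 l))
  have hst : ∀ a : ZMod (N + 3), St 𝔸 𝔹 (r a.val) (F a) (F (a + 1)) := by
    intro a
    have h1 := tpo_comp (hF a) (![a, a + 1] : Fin 2 → ZMod (N + 3)) (by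
      intro w
      fin_cases w
      · exact Or.inl rfl
      · exact Or.inr rfl)
    obtain ⟨g, hg1, hg2⟩ := hE (Fin 2) _ _ h1
    refine ⟨g, en_of_emb ht hg1, ?_, ?_⟩
    · have h2 : g (m a a) = F a := hg2 0
      rwa [hm1] at h2
    · have h2 : g (m a (a + 1)) = F (a + 1) := hg2 1
      rwa [hm2] at h2
  refine ⟨fun i => F (i : ZMod (N + 3)), ?_, ?_⟩
  · change F ((0 : ℕ) : ZMod (N + 3)) = F ((N + 3 : ℕ) : ZMod (N + 3))
    rw [ZMod.natCast_self, Nat.cast_zero]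
  · intro i hi
    have h1 := hst (i : ZMod (N + 3))
    rw [ZMod.val_natCast_of_lt hi] at h1
    change St 𝔸 𝔹 (r i) (F (i : ZMod (N + 3))) (F ((i + 1 : ℕ) : ZMod (N + 3)))
    rw [Nat.cast_add, Nat.cast_one]
    exact h1

end

theorem pf_NEQ : T_NEQ := by
  intro V σ ρ 𝔸 𝔹 ht hE N hC P _ _ f hf hty s x y hxy hfxy
  -- longer words which are not closed
  have hC' : ∀ (r : ℕ → V × V) (k : ℕ),
      (∀ p, Closed 𝔸 𝔹 (Function.update r k (y p, x p)) (k + 1)) → Closed 𝔸 𝔹 r k := by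
    intro r k h
    have h1 : ∀ p, ∃ u : ℕ → V, u 0 = x p ∧ u k = y p ∧
        ∀ i < k, St 𝔸 𝔹 (r i) (u i) (u (i + 1)) := by
      intro p
      obtain ⟨u, hu1, hu2⟩ := h p
      obtain ⟨g, hg1, hg2, hg3⟩ := hu2 k (Nat.lt_succ_self k)
      rw [Function.update_self] at hg2 hg3
      obtain ⟨g', hg'1, hg'2, hg'3⟩ := (hxy p).2.2.2 g hg1
      refine ⟨fun i => g' (u i), ?_, ?_, ?_⟩
      · change g' (u 0) = x p
        rw [hu1, ← hg3]
        exact hg'2
      · change g' (u k) = y p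
        rw [← hg2]
        exact hg'3
      · intro i hi
        have h2 := hu2 i (Nat.lt_succ_of_lt hi)
        rw [Function.update_of_ne (ne_of_lt hi)] at h2
        exact st_comp h2 hg'1
    choose u hu1 hu2 hu3 using h1
    refine ⟨fun i => f (fun p => u p i), ?_, ?_⟩
    · change f (fun p => u p 0) = f (fun p => u p k)
      have h2 : (fun p => u p 0) = x := funext hu1
      have h3 : (fun p => u p k) = y := funext hu2
      rw [h2, h3]
      exact hfxy
    · intro i hi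
      exact st_poly hf hty fun p => hu3 p i hi
  have hlong : ∀ k : ℕ, ∃ r : ℕ → V × V,
      (∀ i, ty 𝔹 (r i).1 = s ∧ ty 𝔹 (r i).2 = s ∧ (r i).1 ≠ (r i).2) ∧
      ¬ Closed 𝔸 𝔹 r (k + 1) := by
    intro k
    induction k with
    | zero =>
      obtain ⟨p₀⟩ := (inferInstance : Nonempty P)
      refine ⟨fun _ => (x p₀, y p₀), fun _ => ⟨(hxy p₀).1, (hxy p₀).2.1, (hxy p₀).2.2.1⟩, ?_⟩
      rintro ⟨u, hu1, hu2⟩
      obtain ⟨g, hg1, hg2, hg3⟩ := hu2 0 (Nat.lt_succ_self 0)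
      obtain ⟨g', _, hg'2, hg'3⟩ := (hxy p₀).2.2.2 g hg1
      apply (hxy p₀).2.2.1
      have h1 : g (x p₀) = g (y p₀) := hg2.trans (hu1.trans hg3.symm)
      rw [← hg'2, h1, hg'3]
    | succ k ih =>
      obtain ⟨r, hr1, hr2⟩ := ih
      have h1 : ∃ p, ¬ Closed 𝔸 𝔹 (Function.update r (k + 1) (y p, x p)) (k + 1 + 1) := by
        by_contra hcon
        push Not at hcon
        exact hr2 (hC' r (k + 1) hcon)
      obtain ⟨p, hp⟩ := h1
      refine ⟨_, ?_, hp⟩
      intro i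
      by_cases hi : i = k + 1
      · subst hi
        rw [Function.update_self]
        exact ⟨(hxy p).2.1, (hxy p).1, (hxy p).2.2.1.symm⟩
      · rw [Function.update_of_ne hi]
        exact hr1 i
  obtain ⟨r, hr1, hr2⟩ := hlong (N + 2)
  exact hr2 (closed_cyg ht hE N hC s r hr1)

end Pool.Agent.H74.FB
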